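import Pool.Agent.InvDiam.Core
import Pool.Agent.InvDiam.Sub

/-!
# MP_e69fdc_co: subdividing can raise the inversion diameter by an unbounded amount
-/

set_option autoImplicit false

namespace Pool.Agent.Results.MP_e69fdc_co.UnboundedSubdivision

open Pool.Agent.InvDiam

/-- For every `c` there are a finite graph `G` and a subdivision `H` of `G` whose inversion diameter is
larger than the inversion diameter of `G` plus `c`. -/
theorem result : ∀ c : ℕ, ∃ (V W : Type) (_ : Finite V) (_ : Finite W) (G : SimpleGraph V)
    (H : SimpleGraph W), IsSubdivision G H ∧ invDiam G + c < invDiam H := by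
  intro c
  obtain ⟨t, V, hV, G₂, G₃, h1, h2⟩ := core c
  obtain ⟨A, B, hA, hB, G, H, h3, h4, h5⟩ := sub_of_core t c G₂ G₃ h1 h2
  exact ⟨A, B, hA, hB, G, H, h3, by omega⟩

end Pool.Agent.Results.MP_e69fdc_co.UnboundedSubdivision
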